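import Pool.Agent.Helper23.EC.DGoalsN

/-!
# MP_ecc237_nt, Part D, packet N2: summability over `(n1,n2)` of the coefficients of `P`.
-/

set_option autoImplicit false

open MeasureTheory Filter Topology Set

namespace Pool.Agent.Helper20.EC.D_N2

open EC237

/-- coefficientwise bound of a family of power series by a weight -/
def CB {ι : Type} (F : ι → PowerSeries ℂ) (W : ι → ℝ) : Prop :=
  ∀ i : ℕ, ∃ C : ℝ, 0 ≤ C ∧ ∀ q : ι, ‖PowerSeries.coeff i (F q)‖ ≤ C * W q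

theorem CB.mul {ι : Type} {F G : ι → PowerSeries ℂ} {W V : ι → ℝ}
    (hF : CB F W) (hG : CB G V) : CB (fun q => F q * G q) (fun q => W q * V q) := by
  intro i
  choose C hC hCb using hF
  choose D hD hDb using hG
  refine ⟨∑ p ∈ Finset.HasAntidiagonal.antidiagonal i, C p.1 * D p.2,
    Finset.sum_nonneg (fun p _ => mul_nonneg (hC _) (hD _)), fun q => ?_⟩
  rw [PowerSeries.coeff_mul, Finset.sum_mul]
  refine (norm_sum_le _ _).trans (Finset.sum_le_sum fun p _ => ?_)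
  rw [norm_mul]
  calc ‖PowerSeries.coeff p.1 (F q)‖ * ‖PowerSeries.coeff p.2 (G q)‖
      ≤ (C p.1 * W q) * (D p.2 * V q) :=
        mul_le_mul (hCb _ _) (hDb _ _) (norm_nonneg _) ((norm_nonneg _).trans (hCb _ _))
    _ = C p.1 * D p.2 * (W q * V q) := by ring

theorem CB.sub {ι : Type} {F G : ι → PowerSeries ℂ} {W : ι → ℝ}
    (hF : CB F W) (hG : CB G W) : CB (fun q => F q - G q) W := by
  intro i
  obtain ⟨C, hC, hCb⟩ := hF i
  obtain ⟨D, hD, hDb⟩ := hG i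
  refine ⟨C + D, add_nonneg hC hD, fun q => ?_⟩
  rw [map_sub, add_mul]
  exact (norm_sub_le _ _).trans (add_le_add (hCb q) (hDb q))

theorem CB.smul {ι : Type} {F : ι → PowerSeries ℂ} {W : ι → ℝ} (c : ℂ)
    (hF : CB F W) : CB (fun q => c • F q) W := by
  intro i
  obtain ⟨C, hC, hCb⟩ := hF i
  refine ⟨‖c‖ * C, mul_nonneg (norm_nonneg _) hC, fun q => ?_⟩
  rw [PowerSeries.coeff_smul, norm_smul, mul_assoc]
  exact mul_le_mul_of_nonneg_left (hCb q) (norm_nonneg _)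

theorem CB.of_eq {ι : Type} {F : ι → PowerSeries ℂ} {W V : ι → ℝ}
    (hF : CB F W) (h : ∀ q, W q = V q) : CB F V := by
  intro i
  obtain ⟨C, hC, hCb⟩ := hF i
  exact ⟨C, hC, fun q => by rw [← h q]; exact hCb q⟩

/-- the series `Σ α^p a^{p+1} x^p` with `‖a‖ ≤ C W`, `0 ≤ W ≤ 1` -/
theorem CB_gser {ι : Type} (a : ι → ℂ) (α : ℂ) (W : ι → ℝ) (C : ℝ) (hC : 0 ≤ C)
    (hW0 : ∀ q, 0 ≤ W q) (hW1 : ∀ q, W q ≤ 1) (ha : ∀ q, ‖a q‖ ≤ C * W q) :
    CB (fun q => gser (a q) α) W := by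
  intro i
  refine ⟨‖α‖ ^ i * C ^ (i + 1), by positivity, fun q => ?_⟩
  unfold gser
  rw [PowerSeries.coeff_mk, norm_mul, norm_pow, norm_pow, mul_assoc]
  refine mul_le_mul_of_nonneg_left ?_ (by positivity)
  calc ‖a q‖ ^ (i + 1) ≤ (C * W q) ^ (i + 1) := pow_le_pow_left₀ (norm_nonneg _) (ha q) _
    _ = C ^ (i + 1) * (W q ^ i * W q) := by rw [mul_pow, pow_succ (W q)]
    _ ≤ C ^ (i + 1) * (1 * W q) := by
        refine mul_le_mul_of_nonneg_left ?_ (by positivity)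
        exact mul_le_mul_of_nonneg_right (pow_le_one₀ (hW0 q) (hW1 q)) (hW0 q)
    _ = C ^ (i + 1) * W q := by rw [one_mul]

/-- weight `1/(1+|n|)` -/
noncomputable def wt (n : ℤ) : ℝ := (1 + |(n:ℝ)|)⁻¹

theorem wt_pos (n : ℤ) : 0 < wt n := by unfold wt; positivity

theorem wt_le_one (n : ℤ) : wt n ≤ 1 := by
  unfold wt
  exact inv_le_one_of_one_le₀ (by linarith [abs_nonneg (n:ℝ)])

/-- `‖n ± i m y‖² = n² + m² y²` -/
theorem normSq_KA (y : ℝ) (n m : ℤ) :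
    ‖KA (y:ℂ) (n, m)‖ ^ 2 = (n:ℝ) ^ 2 + ((m:ℝ) * y) ^ 2 := by
  have h : KA (y:ℂ) (n, m) = ((n:ℝ):ℂ) + (((m:ℝ) * y : ℝ):ℂ) * Complex.I := by
    unfold KA; push_cast; ring
  rw [h, ← Complex.normSq_eq_norm_sq, Complex.normSq_add_mul_I]

theorem normSq_KB (y : ℝ) (n m : ℤ) :
    ‖KB (y:ℂ) (n, m)‖ ^ 2 = (n:ℝ) ^ 2 + ((m:ℝ) * y) ^ 2 := by
  have h : KB (y:ℂ) (n, m) = ((n:ℝ):ℂ) + ((-((m:ℝ) * y) : ℝ):ℂ) * Complex.I := by
    unfold KB; push_cast; ring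
  rw [h, ← Complex.normSq_eq_norm_sq, Complex.normSq_add_mul_I, neg_sq]

/-- lower bound `1 + |n| ≤ C ‖K‖` unless `κ = 0` -/
theorem lower (y : ℝ) (hy : 0 < y) (m : ℤ) : ∃ C : ℝ, 0 ≤ C ∧ ∀ n : ℤ, ∀ K : ℂ,
    ‖K‖ ^ 2 = (n:ℝ) ^ 2 + ((m:ℝ) * y) ^ 2 → ‖K⁻¹‖ ≤ C * wt n := by
  by_cases hm : m = 0
  · refine ⟨2, by norm_num, fun n K hK => ?_⟩
    by_cases hn : n = 0
    · have h0 : ‖K‖ = 0 := by
        have : ‖K‖ ^ 2 = 0 := by rw [hK, hm, hn]; norm_num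
        exact pow_eq_zero_iff (two_ne_zero) |>.1 this
      rw [norm_inv, h0, inv_zero]
      exact mul_nonneg (by norm_num) (wt_pos n).le
    · have h1 : (1:ℝ) ≤ |(n:ℝ)| := by
        have : (1:ℤ) ≤ |n| := Int.one_le_abs hn
        exact_mod_cast this
      have h2 : ‖K‖ = |(n:ℝ)| := by
        have : ‖K‖ ^ 2 = |(n:ℝ)| ^ 2 := by rw [hK, hm, sq_abs]; norm_num
        exact (pow_left_inj₀ (norm_nonneg _) (abs_nonneg _) two_ne_zero).1 this
      rw [norm_inv, h2]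
      unfold wt
      rw [← div_eq_mul_inv, inv_eq_one_div, div_le_div_iff₀ (by linarith) (by linarith)]
      linarith
  · have hm1 : (1:ℝ) ≤ |(m:ℝ)| := by
      have : (1:ℤ) ≤ |m| := Int.one_le_abs hm
      exact_mod_cast this
    have hpos : 0 < |(m:ℝ)| * y := by positivity
    refine ⟨1 + 1 / (|(m:ℝ)| * y), by positivity, fun n K hK => ?_⟩
    set t := |(m:ℝ)| * y with ht
    have hK1 : |(n:ℝ)| ≤ ‖K‖ := by
      refine abs_le_of_sq_le_sq' ?_ (norm_nonneg _) |> fun h => abs_le.2 h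
      rw [hK]; nlinarith [sq_nonneg ((m:ℝ) * y)]
    have hK2 : t ≤ ‖K‖ := by
      have h3 : t ^ 2 ≤ ‖K‖ ^ 2 := by
        rw [hK, ht, mul_pow, mul_pow, sq_abs]; nlinarith [sq_nonneg (n:ℝ)]
      exact (pow_le_pow_iff_left₀ hpos.le (norm_nonneg _) two_ne_zero).1 h3
    have hKpos : 0 < ‖K‖ := lt_of_lt_of_le hpos hK2
    rw [norm_inv]
    unfold wt
    rw [← div_eq_mul_inv, inv_eq_one_div, div_le_div_iff₀ hKpos (by positivity)]
    have h4 : 1 ≤ 1 / t * ‖K‖ := by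
      rw [one_div, inv_mul_eq_div, le_div_iff₀ hpos]; linarith
    nlinarith

theorem summable_wt_sq : Summable (fun n : ℤ => wt n ^ 2) := by
  have h1 : Summable (fun n : ℤ => 1 / (n:ℝ) ^ 2) :=
    Real.summable_one_div_int_pow.2 one_lt_two
  have h2 : Summable (fun n : ℤ => if n = 0 then (1:ℝ) else 0) :=
    summable_of_ne_finset_zero (s := {0}) (fun n hn => by
      rw [if_neg (fun h => hn (Finset.mem_singleton.2 h))])
  refine Summable.of_nonneg_of_le (fun n => by have := wt_pos n; positivity) (fun n => ?_) (h1.add h2)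
  by_cases hn : n = 0
  · rw [if_pos hn]
    have a := wt_pos n
    have b := wt_le_one n
    have c : 0 ≤ 1 / (n:ℝ) ^ 2 := by positivity
    nlinarith
  · rw [if_neg hn, add_zero]
    have h3 : (1:ℝ) ≤ |(n:ℝ)| := by
      have : (1:ℤ) ≤ |n| := Int.one_le_abs hn
      exact_mod_cast this
    unfold wt
    rw [inv_pow, ← one_div, ← sq_abs (n:ℝ)]
    refine one_div_le_one_div_of_le (by positivity) ?_
    nlinarith

theorem summable_pair : Summable (fun q : ℤ × ℤ => wt q.1 ^ 2 * wt q.2 ^ 2) := by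
  exact Summable.mul_of_nonneg summable_wt_sq summable_wt_sq
    (fun n => by have := wt_pos n; positivity) (fun n => by have := wt_pos n; positivity)

/-- `(n1,n2) ↦ (n1, n1+n2)` -/
def e1 : ℤ × ℤ ≃ ℤ × ℤ where
  toFun q := (q.1, q.1 + q.2)
  invFun q := (q.1, q.2 - q.1)
  left_inv q := by ext <;> simp
  right_inv q := by ext <;> simp

/-- `(n1,n2) ↦ (n2, n1+n2)` -/
def e2 : ℤ × ℤ ≃ ℤ × ℤ where
  toFun q := (q.2, q.1 + q.2)
  invFun q := (q.2 - q.1, q.1)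
  left_inv q := by ext <;> simp
  right_inv q := by ext <;> simp

theorem summable_wts : Summable (fun q : ℤ × ℤ => wt q.1 * wt q.2 * (wt (q.1 + q.2) * wt (q.1 + q.2))) := by
  have h1 : Summable (fun q : ℤ × ℤ => wt q.1 ^ 2 * wt (q.1 + q.2) ^ 2) :=
    (e1.summable_iff (f := fun q : ℤ × ℤ => wt q.1 ^ 2 * wt q.2 ^ 2)).2 summable_pair
  have h2 : Summable (fun q : ℤ × ℤ => wt q.2 ^ 2 * wt (q.1 + q.2) ^ 2) :=
    (e2.summable_iff (f := fun q : ℤ × ℤ => wt q.1 ^ 2 * wt q.2 ^ 2)).2 summable_pair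
  refine Summable.of_nonneg_of_le (fun q => ?_) (fun q => ?_) (h1.add h2)
  · have := wt_pos q.1; have := wt_pos q.2; have := wt_pos (q.1 + q.2); positivity
  · have a := wt_pos q.1; have b := wt_pos q.2; have c := wt_pos (q.1 + q.2)
    have : wt q.1 * wt q.2 ≤ wt q.1 ^ 2 + wt q.2 ^ 2 := by
      nlinarith [sq_nonneg (wt q.1 - wt q.2), sq_nonneg (wt q.1), sq_nonneg (wt q.2)]
    nlinarith [mul_le_mul_of_nonneg_right this (by positivity : 0 ≤ wt (q.1 + q.2) ^ 2)]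

theorem CB_As (y : ℝ) (hy : 0 < y) (m al : ℤ) {ι : Type} (f : ι → ℤ) :
    CB (fun q : ι => As (y:ℂ) ((f q, m), al)) (fun q => wt (f q)) := by
  obtain ⟨C, hC, h⟩ := lower y hy m
  exact CB_gser (fun q : ι => (KA (y:ℂ) (f q, m))⁻¹) (al:ℂ) (fun q => wt (f q)) C hC
    (fun q => (wt_pos _).le) (fun q => wt_le_one _) (fun q => h (f q) _ (normSq_KA y (f q) m))

theorem CB_Bs (y : ℝ) (hy : 0 < y) (m al : ℤ) {ι : Type} (f : ι → ℤ) :
    CB (fun q : ι => Bs (y:ℂ) ((f q, m), al)) (fun q => wt (f q)) := by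
  obtain ⟨C, hC, h⟩ := lower y hy m
  exact CB_gser (fun q : ι => (KB (y:ℂ) (f q, m))⁻¹) (al:ℂ) (fun q => wt (f q)) C hC
    (fun q => (wt_pos _).le) (fun q => wt_le_one _) (fun q => h (f q) _ (normSq_KB y (f q) m))

theorem CB_Pp (y : ℝ) (hy : 0 < y) (m1 m2 al1 al2 : ℤ) :
    CB (fun q : ℤ × ℤ => Pp (y:ℂ) ((q.1, m1), al1) ((q.2, m2), al2))
      (fun q => wt q.1 * wt q.2 * (wt (q.1 + q.2) * wt (q.1 + q.2))) := by
  have hA1 := CB_As y hy m1 al1 (fun q : ℤ × ℤ => q.1)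
  have hB1 := CB_Bs y hy m1 al1 (fun q : ℤ × ℤ => q.1)
  have hA2 := CB_As y hy m2 al2 (fun q : ℤ × ℤ => q.2)
  have hB2 := CB_Bs y hy m2 al2 (fun q : ℤ × ℤ => q.2)
  have hAs := CB_As y hy (m1 + m2) (al1 + al2) (fun q : ℤ × ℤ => q.1 + q.2)
  have hBs := CB_Bs y hy (m1 + m2) (al1 + al2) (fun q : ℤ × ℤ => q.1 + q.2)
  exact (((hA1.mul hB2).sub (hB1.mul hA2)).mul (hAs.mul hBs)).smul _

theorem thm (_hA1 : EC237.A1) (_hN1 : EC237.N1) : EC237.N2 := by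
  intro y hy r1 r2 m1 m2 al1 al2 i
  obtain ⟨C, hC, h⟩ := CB_Pp y hy m1 m2 al1 al2 i
  refine Summable.of_norm_bounded (summable_wts.mul_left C) (fun q => ?_)
  split_ifs with hq
  · exact h q
  · rw [norm_zero]
    have := wt_pos q.1; have := wt_pos q.2; have := wt_pos (q.1 + q.2); positivity

end Pool.Agent.Helper20.EC.D_N2
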